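import Pool.Agent.H295R3.NA.Stmts

/-! TaskUP of project H295-NA. -/

set_option autoImplicit false

open Finset Filter Topology

namespace Pool.Agent.H201R3.NAUP

open Pool.Agent.H295R3.NA

/-- the part of `n` composed of the primes `q` with `l ∣ q + 1` -/
def sP (l n : ℕ) : ℕ := ∏ q ∈ n.primeFactors.filter (fun q => l ∣ q + 1), q ^ n.factorization q

/-- the other part -/
def uP (l n : ℕ) : ℕ := ∏ q ∈ n.primeFactors.filter (fun q => ¬ l ∣ q + 1), q ^ n.factorization q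

theorem sP_mul_uP (l : ℕ) {n : ℕ} (hn : n ≠ 0) : sP l n * uP l n = n := by
  unfold sP uP
  rw [Finset.prod_filter_mul_prod_filter_not]
  have h := Nat.prod_factorization_pow_eq_self hn
  rw [Finsupp.prod, Nat.support_factorization] at h
  exact h

theorem uP_free (l n : ℕ) : Free l (uP l n) := by
  intro q hq hl hd
  unfold uP at hd
  rw [hq.prime.dvd_finsetProd_iff] at hd
  obtain ⟨p, hp, hd⟩ := hd
  rw [Finset.mem_filter] at hp
  have h1 : q ∣ p := hq.dvd_of_dvd_pow hd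
  have h2 : q = p := (Nat.prime_dvd_prime_iff_eq hq (Nat.prime_of_mem_primeFactors hp.1)).mp h1
  rw [h2] at hl
  exact hp.2 hl

theorem two_le_fact {l n : ℕ} (hcnt : cnt l n = 0) {q : ℕ}
    (hq : q ∈ n.primeFactors.filter (fun q => l ∣ q + 1)) : 2 ≤ n.factorization q := by
  unfold cnt at hcnt
  rw [Finset.card_eq_zero] at hcnt
  rw [Finset.mem_filter] at hq
  have h1 : q ^ 2 ∣ n := by
    by_contra hcon
    have h2 : q ∈ n.primeFactors.filter (fun q => ¬ q ^ 2 ∣ n ∧ l ∣ q + 1) := by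
      rw [Finset.mem_filter]
      exact ⟨hq.1, hcon, hq.2⟩
    rw [hcnt] at h2
    simp at h2
  have hp := Nat.prime_of_mem_primeFactors hq.1
  have hn : n ≠ 0 := (Nat.mem_primeFactors.mp hq.1).2.2
  exact (hp.pow_dvd_iff_le_factorization hn).mp h1

theorem sP_form {l n : ℕ} (hcnt : cnt l n = 0) :
    ∃ b c : ℕ, 1 ≤ b ∧ 1 ≤ c ∧ sP l n = b ^ 3 * c ^ 2 := by
  refine ⟨∏ q ∈ n.primeFactors.filter (fun q => l ∣ q + 1), q ^ (n.factorization q % 2),
    ∏ q ∈ n.primeFactors.filter (fun q => l ∣ q + 1),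
      q ^ ((n.factorization q - 3 * (n.factorization q % 2)) / 2), ?_, ?_, ?_⟩
  · refine Nat.succ_le_of_lt (Finset.prod_pos ?_)
    intro q hq
    exact pow_pos (Nat.prime_of_mem_primeFactors (Finset.mem_filter.mp hq).1).pos _
  · refine Nat.succ_le_of_lt (Finset.prod_pos ?_)
    intro q hq
    exact pow_pos (Nat.prime_of_mem_primeFactors (Finset.mem_filter.mp hq).1).pos _
  · unfold sP
    rw [← Finset.prod_pow, ← Finset.prod_pow, ← Finset.prod_mul_distrib]
    apply Finset.prod_congr rfl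
    intro q hq
    have h2 := two_le_fact hcnt hq
    rw [← pow_mul, ← pow_mul, ← pow_add]
    congr 1
    omega

theorem sP_pos (l n : ℕ) : 1 ≤ sP l n := by
  refine Nat.succ_le_of_lt (Finset.prod_pos ?_)
  intro q hq
  exact pow_pos (Nat.prime_of_mem_primeFactors (Finset.mem_filter.mp hq).1).pos _

theorem sP_large {l n : ℕ} (hcnt : cnt l n = 0) (h1 : sP l n ≠ 1) :
    (l - 1) ^ 2 ≤ sP l n := by
  have hne : (n.primeFactors.filter (fun q => l ∣ q + 1)).Nonempty := by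
    rw [Finset.nonempty_iff_ne_empty]
    intro h0
    apply h1
    unfold sP
    rw [h0, Finset.prod_empty]
  obtain ⟨q, hq⟩ := hne
  have h2 := two_le_fact hcnt hq
  have h3 : q ^ n.factorization q ∣ sP l n := by
    unfold sP
    exact Finset.dvd_prod_of_mem _ hq
  have hq' := Finset.mem_filter.mp hq
  have hqp := (Nat.prime_of_mem_primeFactors hq'.1).pos
  have h4 : l - 1 ≤ q := by
    have := Nat.le_of_dvd (by omega) hq'.2
    omega
  calc (l - 1) ^ 2 ≤ q ^ 2 := Nat.pow_le_pow_left h4 2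
    _ ≤ q ^ n.factorization q := Nat.pow_le_pow_right hqp h2
    _ ≤ sP l n := Nat.le_of_dvd (sP_pos l n) h3

theorem decomp {l n : ℕ} (hn : n ≠ 0) (hl : 1 ≤ l) (h3 : ¬ l ∣ 3) (h2 : padicValNat 2 n = l - 1) :
    ∃ t : ℕ, 1 ≤ t ∧ Odd t ∧ Free l t ∧ n = 2 ^ (l - 1) * sP l n * t := by
  have hmul := sP_mul_uP l hn
  have hcop : Nat.Coprime (2 ^ (l - 1)) (sP l n) := by
    apply Nat.Coprime.pow_left
    rw [Nat.coprime_comm]
    unfold sP
    apply Nat.Coprime.prod_left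
    intro q hq
    apply Nat.Coprime.pow_left
    have hq' := Finset.mem_filter.mp hq
    rw [Nat.coprime_primes (Nat.prime_of_mem_primeFactors hq'.1) Nat.prime_two]
    rintro rfl
    exact h3 hq'.2
  have hd : 2 ^ (l - 1) ∣ n := by
    rw [padicValNat_dvd_iff_le hn]
    exact h2.ge
  have hd2 : 2 ^ (l - 1) ∣ uP l n := by
    rw [← hmul] at hd
    exact hcop.dvd_of_dvd_mul_left hd
  obtain ⟨t, ht⟩ := hd2
  have hnt : n = 2 ^ (l - 1) * sP l n * t := by
    calc n = sP l n * uP l n := hmul.symm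
      _ = sP l n * (2 ^ (l - 1) * t) := by rw [ht]
      _ = _ := by ring
  have ht0 : t ≠ 0 := by
    rintro rfl
    rw [mul_zero] at hnt
    exact hn hnt
  refine ⟨t, Nat.one_le_iff_ne_zero.mpr ht0, ?_, ?_, hnt⟩
  · rw [← Nat.not_even_iff_odd]
    rintro ⟨u, hu⟩
    have h5 : 2 ^ l ∣ n := by
      have e : 2 ^ l = 2 ^ (l - 1) * 2 := by
        rw [← pow_succ]
        congr 1
        omega
      refine ⟨sP l n * u, ?_⟩
      calc n = 2 ^ (l - 1) * sP l n * t := hnt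
        _ = 2 ^ l * (sP l n * u) := by
          rw [e, hu]
          ring
    rw [padicValNat_dvd_iff_le hn] at h5
    omega
  · intro q hq hlq hqt
    exact uP_free l n q hq hlq (ht ▸ Dvd.dvd.mul_left hqt _)

open Classical in
/-- number of odd free `t ≤ Y` -/
noncomputable def OO (l Y : ℕ) : ℝ := (((Icc 1 Y).filter (fun t => Odd t ∧ Free l t)).card : ℝ)

theorem OO_le (l Y : ℕ) (h3 : ¬ l ∣ 3) : OO l Y + GG l (Y / 2) ≤ GG l Y := by
  classical
  unfold OO GG
  have h1 : ((Icc 1 Y).filter (fun t => Odd t ∧ Free l t)).card +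
      ((Icc 1 (Y / 2)).filter (fun m => Free l m)).card ≤ ((Icc 1 Y).filter (fun m => Free l m)).card := by
    have hinj : Function.Injective (fun m : ℕ => 2 * m) := by
      intro a b hab
      have : 2 * a = 2 * b := hab
      omega
    rw [← Finset.card_image_of_injective ((Icc 1 (Y / 2)).filter (fun m => Free l m)) hinj]
    rw [← Finset.card_union_of_disjoint]
    · apply Finset.card_le_card
      intro t ht
      rw [Finset.mem_union] at ht
      rcases ht with ht | ht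
      · rw [Finset.mem_filter] at ht ⊢
        exact ⟨ht.1, ht.2.2⟩
      · rw [Finset.mem_image] at ht
        obtain ⟨m, hm, rfl⟩ := ht
        rw [Finset.mem_filter, Finset.mem_Icc] at hm ⊢
        refine ⟨⟨by omega, by omega⟩, ?_⟩
        intro q hq hlq hd
        rcases (hq.dvd_mul).mp hd with h | h
        · have : q = 2 := (Nat.prime_dvd_prime_iff_eq hq Nat.prime_two).mp h
          subst this
          exact h3 hlq
        · exact hm.2 q hq hlq h
    · rw [Finset.disjoint_left]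
      intro t ht ht2
      rw [Finset.mem_image] at ht2
      obtain ⟨m, hm, rfl⟩ := ht2
      rw [Finset.mem_filter] at ht
      have := ht.2.1
      rw [← Nat.not_even_iff_odd] at this
      exact this (even_two_mul m)
  exact_mod_cast h1

theorem OO_le_self (l Y : ℕ) : OO l Y ≤ Y := by
  classical
  unfold OO
  have : ((Icc 1 Y).filter (fun t => Odd t ∧ Free l t)).card ≤ Y := by
    calc _ ≤ (Icc 1 Y).card := Finset.card_filter_le _ _
      _ = Y := by simp
  exact_mod_cast this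

theorem wsum : ∃ C₁ : ℝ, 0 < C₁ ∧ ∀ F : Finset ℕ,
    (∀ s ∈ F, ∃ b c : ℕ, 1 ≤ b ∧ 1 ≤ c ∧ s = b ^ 3 * c ^ 2) →
    ∑ s ∈ F, (s : ℝ) ^ (-(3 / 4) : ℝ) ≤ C₁ := by
  have hb : Summable (fun b : ℕ => (b : ℝ) ^ (-(9 / 4) : ℝ)) := by
    rw [Real.summable_nat_rpow]
    norm_num
  have hc : Summable (fun c : ℕ => (c : ℝ) ^ (-(3 / 2) : ℝ)) := by
    rw [Real.summable_nat_rpow]
    norm_num
  have hS : Summable (fun p : ℕ × ℕ => (p.1 : ℝ) ^ (-(9 / 4) : ℝ) * (p.2 : ℝ) ^ (-(3 / 2) : ℝ)) :=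
    Summable.mul_of_nonneg hb hc (fun b => Real.rpow_nonneg (Nat.cast_nonneg b) _)
      (fun c => Real.rpow_nonneg (Nat.cast_nonneg c) _)
  have hnn : ∀ p : ℕ × ℕ, 0 ≤ (p.1 : ℝ) ^ (-(9 / 4) : ℝ) * (p.2 : ℝ) ^ (-(3 / 2) : ℝ) := fun p =>
    mul_nonneg (Real.rpow_nonneg (Nat.cast_nonneg _) _) (Real.rpow_nonneg (Nat.cast_nonneg _) _)
  refine ⟨(∑' p : ℕ × ℕ, (p.1 : ℝ) ^ (-(9 / 4) : ℝ) * (p.2 : ℝ) ^ (-(3 / 2) : ℝ)) + 1, ?_, ?_⟩
  · have h0 : 0 ≤ ∑' p : ℕ × ℕ, (p.1 : ℝ) ^ (-(9 / 4) : ℝ) * (p.2 : ℝ) ^ (-(3 / 2) : ℝ) :=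
      tsum_nonneg hnn
    linarith
  · intro F hF
    choose! b c hb1 hc1 hbc using hF
    have h1 : ∑ s ∈ F, (s : ℝ) ^ (-(3 / 4) : ℝ) =
        ∑ s ∈ F, ((b s : ℕ) : ℝ) ^ (-(9 / 4) : ℝ) * ((c s : ℕ) : ℝ) ^ (-(3 / 2) : ℝ) := by
      apply Finset.sum_congr rfl
      intro s hs
      have hbp : (0 : ℝ) ≤ (b s : ℝ) := Nat.cast_nonneg _
      have hcp : (0 : ℝ) ≤ (c s : ℝ) := Nat.cast_nonneg _
      have e : (s : ℝ) = (b s : ℝ) ^ 3 * (c s : ℝ) ^ 2 := by exact_mod_cast hbc s hs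
      rw [e, Real.mul_rpow (by positivity) (by positivity)]
      rw [← Real.rpow_natCast (b s : ℝ) 3, ← Real.rpow_natCast (c s : ℝ) 2,
        ← Real.rpow_mul hbp, ← Real.rpow_mul hcp]
      norm_num
    rw [h1]
    have hinj : Set.InjOn (fun s => (b s, c s)) (F : Set ℕ) := by
      intro s hs t ht hst
      have h2 : b s = b t ∧ c s = c t := by simpa using hst
      rw [hbc s hs, hbc t ht, h2.1, h2.2]
    have h3 : ∑ s ∈ F, ((b s : ℕ) : ℝ) ^ (-(9 / 4) : ℝ) * ((c s : ℕ) : ℝ) ^ (-(3 / 2) : ℝ) =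
        ∑ p ∈ F.image (fun s => (b s, c s)), (p.1 : ℝ) ^ (-(9 / 4) : ℝ) * (p.2 : ℝ) ^ (-(3 / 2) : ℝ) := by
      rw [Finset.sum_image hinj]
    rw [h3]
    have h4 := hS.sum_le_tsum (F.image (fun s => (b s, c s))) (fun p _ => hnn p)
    linarith

theorem tail {C₁ : ℝ} (F : Finset ℕ) (hF : ∑ s ∈ F, (s : ℝ) ^ (-(3 / 4) : ℝ) ≤ C₁) {T : ℝ}
    (hT : 0 < T) (hs : ∀ s ∈ F, T ≤ (s : ℝ)) :
    ∑ s ∈ F, (1 : ℝ) / s ≤ C₁ * T ^ (-(1 / 4) : ℝ) := by
  calc ∑ s ∈ F, (1 : ℝ) / s ≤ ∑ s ∈ F, (s : ℝ) ^ (-(3 / 4) : ℝ) * T ^ (-(1 / 4) : ℝ) := by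
        apply Finset.sum_le_sum
        intro s h
        have h0 : 0 < (s : ℝ) := lt_of_lt_of_le hT (hs s h)
        have e : (1 : ℝ) / s = (s : ℝ) ^ (-(3 / 4) : ℝ) * (s : ℝ) ^ (-(1 / 4) : ℝ) := by
          rw [← Real.rpow_add h0]
          norm_num
          rw [Real.rpow_neg_one]
        rw [e]
        apply mul_le_mul_of_nonneg_left _ (Real.rpow_nonneg h0.le _)
        exact Real.rpow_le_rpow_of_nonpos hT (hs s h) (by norm_num)
    _ = (∑ s ∈ F, (s : ℝ) ^ (-(3 / 4) : ℝ)) * T ^ (-(1 / 4) : ℝ) := by rw [Finset.sum_mul]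
    _ ≤ _ := mul_le_mul_of_nonneg_right hF (Real.rpow_nonneg hT.le _)

theorem LL_mono {Z Y : ℕ} (hZ : 2 ≤ Z) (h : Z ≤ Y) : LL Z ≤ LL Y := by
  unfold LL
  have hZ' : (1 : ℝ) < Z := by exact_mod_cast hZ
  have h1 : 0 < Real.log Z := Real.log_pos hZ'
  apply Real.log_le_log h1
  apply Real.log_le_log (by linarith)
  exact_mod_cast h

theorem EE_anti {l Z Y : ℕ} (hl : 2 ≤ l) (hZ : 2 ≤ Z) (h : Z ≤ Y) : EE l Y ≤ EE l Z := by
  unfold EE
  rw [Real.exp_le_exp]
  have hl' : (0 : ℝ) < (l : ℝ) - 1 := by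
    have : (2 : ℝ) ≤ l := by exact_mod_cast hl
    linarith
  have := LL_mono hZ h
  gcongr

theorem EE_up {l Z x : ℕ} {c : ℝ} (hl : 2 ≤ l) (h : LL x - c ≤ LL Z) :
    EE l Z ≤ EE l x * Real.exp (c / ((l : ℝ) - 1)) := by
  unfold EE
  rw [← Real.exp_add, Real.exp_le_exp]
  have hl' : (0 : ℝ) < (l : ℝ) - 1 := by
    have : (2 : ℝ) ≤ l := by exact_mod_cast hl
    linarith
  rw [← add_div]
  gcongr
  linarith

/-- the small part -/
theorem small {ε : ℝ} (hε : 0 < ε) (hε1 : ε ≤ 1) {l0 Y0 : ℕ}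
    (hSV : ∀ Y : ℕ, Y0 ≤ Y → ∀ l : ℕ, l.Prime → l0 ≤ l →
      (l : ℝ) ^ 2 ≤ 500 * LL Y → |GG l Y - Y * EE l Y| ≤ ε * (Y * EE l Y))
    {x l s : ℕ} (hl : l.Prime) (hl0 : l0 ≤ l) (hl5 : 5 ≤ l)
    (hlε : Real.exp (2 / ((l : ℝ) - 1)) ≤ 1 + ε)
    (hx : (10 : ℝ) ^ 8 ≤ Real.log x) (hx2 : 3 * (Y0 : ℝ) ≤ Real.log x)
    (hx3 : 6 / ε ≤ Real.log x) (hlx : (l : ℝ) ^ 2 ≤ 400 * LL x) (hs : 1 ≤ s)
    (hsx : Real.log s ≤ Real.log x / 2) :
    OO l (x / (2 ^ (l - 1) * s)) ≤
      (1 + 4 * ε) * (1 + ε) * ((x : ℝ) / (2 ^ l * s) * EE l x) := by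
  set L : ℝ := Real.log x with hLdef
  have hL0 : 0 < L := by linarith [show (0 : ℝ) < 10 ^ 8 by norm_num]
  have hLL : LL x = Real.log L := rfl
  have hx0 : (0 : ℝ) < x := by
    rcases Nat.eq_zero_or_pos x with h | h
    · subst h
      simp at hLdef
      linarith
    · exact_mod_cast h
  -- log L ≤ L / 4800
  have hlogL : Real.log L ≤ 2 * √L := by
    have h1 : Real.log (√L) ≤ √L := (Real.log_le_sub_one_of_pos (Real.sqrt_pos.mpr hL0)).trans (by linarith)
    have h2 : Real.log L = 2 * Real.log (√L) := by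
      rw [Real.log_sqrt hL0.le]
      ring
    linarith
  have hsq : (9600 : ℝ) ≤ √L := by
    apply Real.le_sqrt_of_sq_le
    norm_num
    linarith
  have hLbig : 400 * Real.log L ≤ L / 12 := by
    have h1 : √L * √L = L := Real.mul_self_sqrt hL0.le
    nlinarith
  have hl1 : (1 : ℝ) ≤ l := by exact_mod_cast hl.one_lt.le
  have hlL : (l : ℝ) * Real.log 2 ≤ L / 12 := by
    have h1 : Real.log 2 ≤ 1 := by
      have := Real.log_two_lt_d9
      linarith
    have h2 : 0 ≤ Real.log 2 := Real.log_nonneg (by norm_num)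
    have h3 : (l : ℝ) ≤ (l : ℝ) ^ 2 := by nlinarith
    calc (l : ℝ) * Real.log 2 ≤ (l : ℝ) * 1 := by gcongr
      _ ≤ (l : ℝ) ^ 2 := by linarith
      _ ≤ 400 * Real.log L := by rw [← hLL]; exact hlx
      _ ≤ L / 12 := hLbig
  have hs0 : (0 : ℝ) < s := by exact_mod_cast hs
  set V : ℝ := (x : ℝ) / (2 ^ l * s) with hVdef
  have hV0 : 0 < V := by positivity
  have hlogV : 5 * L / 12 ≤ Real.log V := by
    rw [hVdef, Real.log_div hx0.ne' (by positivity), Real.log_mul (by positivity) hs0.ne', Real.log_pow]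
    linarith
  have hVexp : Real.exp (5 * L / 12) ≤ V := by
    rw [← Real.exp_log hV0]
    exact Real.exp_le_exp.mpr hlogV
  have hexp : 2 * Real.exp (L / 3) ≤ Real.exp (5 * L / 12) := by
    have e : 5 * L / 12 = L / 12 + L / 3 := by ring
    rw [e, Real.exp_add]
    have h1 : (2 : ℝ) ≤ Real.exp (L / 12) := by
      have := Real.add_one_le_exp (L / 12)
      linarith [show (12 : ℝ) ≤ 10 ^ 8 by norm_num]
    have h2 := Real.exp_pos (L / 3)
    nlinarith
  set Y : ℕ := x / (2 ^ (l - 1) * s) with hYdef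
  set Z : ℕ := Y / 2 with hZdef
  have hZx : Z = x / (2 ^ l * s) := by
    rw [hZdef, hYdef, Nat.div_div_eq_div_mul]
    congr 1
    have e : 2 ^ l = 2 ^ (l - 1) * 2 := by
      rw [← pow_succ]
      congr 1
      omega
    rw [e]
    ring
  have hZV : (Z : ℝ) ≤ V := by
    rw [hZx, hVdef]
    have := @Nat.cast_div_le ℝ _ _ _ x (2 ^ l * s)
    push_cast at this
    exact this
  have hVZ : V < Z + 1 := by
    rw [hZx, hVdef, div_lt_iff₀ (by positivity)]
    have h1 := Nat.lt_div_mul_add (a := x) (b := 2 ^ l * s) (by positivity)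
    have h2 : (x : ℝ) < ((x / (2 ^ l * s) * (2 ^ l * s) + 2 ^ l * s : ℕ) : ℝ) := by exact_mod_cast h1
    push_cast at h2 ⊢
    linarith
  have hexp1 : 1 ≤ Real.exp (L / 3) := Real.one_le_exp (by linarith)
  have hZexp : Real.exp (L / 3) ≤ Z := by linarith
  have hZL : L / 3 + 1 ≤ (Z : ℝ) := (Real.add_one_le_exp _).trans hZexp
  have hZ0 : (0 : ℝ) < Z := by linarith
  have hZ2 : 2 ≤ Z := by
    have h1 : (2 : ℝ) ≤ Z := by linarith [show (3 : ℝ) ≤ 10 ^ 8 by norm_num]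
    exact_mod_cast h1
  have hlogZ : L / 3 ≤ Real.log Z := by
    rw [Real.le_log_iff_exp_le hZ0]
    exact hZexp
  have hLLZ : LL x - 2 ≤ LL Z := by
    have h1 : Real.log (L / 3) ≤ LL Z := Real.log_le_log (by linarith) hlogZ
    rw [Real.log_div hL0.ne' (by norm_num)] at h1
    have h2 : Real.log 3 ≤ 3 - 1 := Real.log_le_sub_one_of_pos (by norm_num)
    rw [hLL]
    linarith
  have hLL10 : 10 ≤ LL x := by
    rw [hLL, Real.le_log_iff_exp_le hL0]
    have h1 : Real.exp 1 ≤ 3 := by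
      have := Real.exp_one_lt_d9
      linarith
    calc Real.exp 10 = Real.exp 1 ^ 10 := by
          rw [← Real.exp_nat_mul]
          norm_num
      _ ≤ 3 ^ 10 := by gcongr
      _ ≤ L := by
          have : (3 : ℝ) ^ 10 ≤ 10 ^ 8 := by norm_num
          linarith
  have hlZ : (l : ℝ) ^ 2 ≤ 500 * LL Z := by linarith
  have hZY : Z ≤ Y := Nat.div_le_self _ _
  have hlY : (l : ℝ) ^ 2 ≤ 500 * LL Y := by linarith [LL_mono hZ2 hZY]
  have hY0Z : Y0 ≤ Z := by
    have : (Y0 : ℝ) ≤ Z := by linarith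
    exact_mod_cast this
  have h1 := abs_le.mp (hSV Y (hY0Z.trans hZY) l hl hl0 hlY)
  have h2 := abs_le.mp (hSV Z hY0Z l hl hl0 hlZ)
  have h3 : ¬ l ∣ 3 := by
    intro h
    have := Nat.le_of_dvd (by norm_num) h
    omega
  have h4 := OO_le l Y h3
  rw [← hZdef] at h4
  have h5 := EE_anti (l := l) (by omega) hZ2 hZY
  have h6 := (EE_up (l := l) (by omega) hLLZ)
  have hEx : 0 < EE l x := Real.exp_pos _
  have hEZ : 0 < EE l Z := Real.exp_pos _
  have hEY : 0 < EE l Y := Real.exp_pos _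
  have hY2 : (Y : ℝ) ≤ 2 * Z + 1 := by
    have : Y ≤ 2 * Z + 1 := by omega
    exact_mod_cast this
  have hY0' : (0 : ℝ) ≤ Y := Nat.cast_nonneg _
  have h7 : EE l Z ≤ (1 + ε) * EE l x := by
    calc EE l Z ≤ EE l x * Real.exp (2 / ((l : ℝ) - 1)) := h6
      _ ≤ EE l x * (1 + ε) := by gcongr
      _ = _ := by ring
  have hεZ : 2 ≤ ε * Z := by
    have h8 : 6 / ε / 3 ≤ Z := by linarith
    have h9 : ε * (6 / ε / 3) = 2 := by
      field_simp
      norm_num
    calc (2 : ℝ) = ε * (6 / ε / 3) := h9.symm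
      _ ≤ ε * Z := by gcongr
  have hA : (Y : ℝ) * EE l Y ≤ (2 * Z + 1) * EE l Z := by
    calc (Y : ℝ) * EE l Y ≤ Y * EE l Z := by gcongr
      _ ≤ _ := by gcongr
  have hB : OO l Y ≤ (1 + ε) * ((2 * Z + 1) * EE l Z) - (1 - ε) * (Z * EE l Z) := by
    have : (1 + ε) * (Y * EE l Y) ≤ (1 + ε) * ((2 * Z + 1) * EE l Z) := by
      gcongr
    nlinarith [h1.2, h2.1]
  have hC : (1 + ε) * ((2 * Z + 1) * EE l Z) - (1 - ε) * (Z * EE l Z) ≤ (1 + 4 * ε) * (Z * EE l Z) := by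
    have : (1 + ε) * (2 * (Z : ℝ) + 1) - (1 - ε) * Z ≤ (1 + 4 * ε) * Z := by nlinarith
    nlinarith
  calc OO l Y ≤ (1 + 4 * ε) * (Z * EE l Z) := hB.trans hC
    _ ≤ (1 + 4 * ε) * (V * ((1 + ε) * EE l x)) := by gcongr
    _ = _ := by ring

theorem fibre {l x s : ℕ} (hl : 1 ≤ l) (h3 : ¬ l ∣ 3) (hs : 1 ≤ s) (N : Finset ℕ)
    (hN : ∀ n ∈ N, 1 ≤ n ∧ n ≤ x ∧ padicValNat 2 n = l - 1 ∧ cnt l n = 0) :
    ((N.filter (fun n => sP l n = s)).card : ℝ) ≤ OO l (x / (2 ^ (l - 1) * s)) := by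
  classical
  have hD : 0 < 2 ^ (l - 1) * s := by positivity
  have key : ∀ n ∈ N.filter (fun n => sP l n = s), ∃ t : ℕ, 1 ≤ t ∧ Odd t ∧ Free l t ∧
      n = 2 ^ (l - 1) * s * t ∧ n ≤ x := by
    intro n hn
    rw [Finset.mem_filter] at hn
    obtain ⟨h1, h2, h4, -⟩ := hN n hn.1
    obtain ⟨t, ht1, ht2, ht3, ht4⟩ := decomp (by omega) hl h3 h4
    rw [hn.2] at ht4
    exact ⟨t, ht1, ht2, ht3, ht4, h2⟩
  unfold OO
  norm_cast
  apply Finset.card_le_card_of_injOn (fun n => n / (2 ^ (l - 1) * s))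
  · intro n hn
    obtain ⟨t, ht1, ht2, ht3, ht4, ht5⟩ := key n hn
    have e : n / (2 ^ (l - 1) * s) = t := by
      rw [ht4]
      exact Nat.mul_div_cancel_left _ hD
    show n / (2 ^ (l - 1) * s) ∈ _
    rw [Finset.mem_coe, Finset.mem_filter, Finset.mem_Icc]
    refine ⟨⟨?_, Nat.div_le_div_right ht5⟩, ?_, ?_⟩
    · rw [e]
      exact ht1
    · rw [e]
      exact ht2
    · rw [e]
      exact ht3
  · intro n hn m hm hnm
    obtain ⟨t, -, -, -, ht4, -⟩ := key n hn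
    obtain ⟨u, -, -, -, hu4, -⟩ := key m hm
    have e : n / (2 ^ (l - 1) * s) = t := by
      rw [ht4]
      exact Nat.mul_div_cancel_left _ hD
    have e2 : m / (2 ^ (l - 1) * s) = u := by
      rw [hu4]
      exact Nat.mul_div_cancel_left _ hD
    have hnm' : n / (2 ^ (l - 1) * s) = m / (2 ^ (l - 1) * s) := hnm
    rw [e, e2] at hnm'
    rw [ht4, hu4, hnm']

theorem taskUP : Pool.Agent.H295R3.NA.TaskUP := by
  classical
  intro hSV ε hε
  obtain ⟨C₁, hC₁, hW⟩ := wsum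
  set e : ℝ := min ε 1 / 20 with he
  have he0 : 0 < e := by
    have : 0 < min ε 1 := lt_min hε one_pos
    positivity
  have he1 : e ≤ 1 := by
    have : min ε 1 ≤ 1 := min_le_right _ _
    linarith
  have he2 : 20 * e ≤ ε := by
    have : min ε 1 ≤ ε := min_le_left _ _
    linarith
  obtain ⟨l0, Y0, hSV'⟩ := hSV e he0
  have hT : Tendsto (fun T : ℝ => C₁ * T ^ (-(1 / 4) : ℝ)) atTop (𝓝 0) := by
    have := (tendsto_rpow_neg_atTop (y := (1 / 4 : ℝ)) (by norm_num)).const_mul C₁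
    simpa using this
  obtain ⟨T0, hT0⟩ := Filter.eventually_atTop.mp (hT.eventually_le_const he0)
  have hlog1e : 0 < Real.log (1 + e) := Real.log_pos (by linarith)
  refine ⟨max (max l0 5) (max (⌈T0⌉₊ + 2) (⌈2 / Real.log (1 + e)⌉₊ + 1)),
    ⌈Real.exp (max (max ((10 : ℝ) ^ 8) (3 * (Y0 : ℝ))) (max (6 / e) (256 * C₁ / e)))⌉₊, ?_⟩
  intro x hx l hl hl' hlx
  have hl0 : l0 ≤ l := le_trans (le_trans (le_max_left _ _) (le_max_left _ _)) hl'
  have hl5 : 5 ≤ l := le_trans (le_trans (le_max_right _ _) (le_max_left _ _)) hl'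
  have hlT : ⌈T0⌉₊ + 2 ≤ l := le_trans (le_trans (le_max_left _ _) (le_max_right _ _)) hl'
  have hle : ⌈2 / Real.log (1 + e)⌉₊ + 1 ≤ l :=
    le_trans (le_trans (le_max_right _ _) (le_max_right _ _)) hl'
  have hl5' : (5 : ℝ) ≤ l := by exact_mod_cast hl5
  have hlε : Real.exp (2 / ((l : ℝ) - 1)) ≤ 1 + e := by
    rw [← Real.le_log_iff_exp_le (by linarith), div_le_iff₀ (by linarith)]
    have h1 : 2 / Real.log (1 + e) ≤ (l : ℝ) - 1 := by
      have h2 : ((⌈2 / Real.log (1 + e)⌉₊ + 1 : ℕ) : ℝ) ≤ l := by exact_mod_cast hle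
      push_cast at h2
      linarith [Nat.le_ceil (2 / Real.log (1 + e))]
    rw [div_le_iff₀ hlog1e] at h1
    linarith
  have hLmax : max (max ((10 : ℝ) ^ 8) (3 * (Y0 : ℝ))) (max (6 / e) (256 * C₁ / e)) ≤ Real.log x := by
    have h1 : Real.exp (max (max ((10 : ℝ) ^ 8) (3 * (Y0 : ℝ))) (max (6 / e) (256 * C₁ / e))) ≤ x := by
      refine (Nat.le_ceil _).trans ?_
      exact_mod_cast hx
    rw [Real.le_log_iff_exp_le (lt_of_lt_of_le (Real.exp_pos _) h1)]
    exact h1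
  have hx1 : (10 : ℝ) ^ 8 ≤ Real.log x := (le_trans (le_max_left _ _) (le_max_left _ _)).trans hLmax
  have hx2 : 3 * (Y0 : ℝ) ≤ Real.log x := (le_trans (le_max_right _ _) (le_max_left _ _)).trans hLmax
  have hx3 : 6 / e ≤ Real.log x := (le_trans (le_max_left _ _) (le_max_right _ _)).trans hLmax
  have hx4 : 256 * C₁ / e ≤ Real.log x := (le_trans (le_max_right _ _) (le_max_right _ _)).trans hLmax
  have hL0 : 0 < Real.log x := by linarith [show (0 : ℝ) < 10 ^ 8 by norm_num]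
  have hx0 : (0 : ℝ) ≤ x := Nat.cast_nonneg _
  have h3 : ¬ l ∣ 3 := by
    intro h
    have := Nat.le_of_dvd (by norm_num) h
    omega
  obtain ⟨N, hNdef⟩ : ∃ N : Finset ℕ, N = (Icc 1 x).filter (fun n => padicValNat 2 n = l - 1 ∧ cnt l n = 0) :=
    ⟨_, rfl⟩
  have hNb : Nb (fun n => padicValNat 2 n = l - 1 ∧ cnt l n = 0) x = (N.card : ℝ) := by
    unfold Nb
    rw [hNdef]
    congr!
  have hN : ∀ n ∈ N, 1 ≤ n ∧ n ≤ x ∧ padicValNat 2 n = l - 1 ∧ cnt l n = 0 := by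
    intro n hn
    rw [hNdef, Finset.mem_filter, Finset.mem_Icc] at hn
    exact ⟨hn.1.1, hn.1.2, hn.2.1, hn.2.2⟩
  obtain ⟨F, hF⟩ : ∃ F : Finset ℕ, F = N.image (sP l) := ⟨_, rfl⟩
  have hFs : ∀ s ∈ F, (∃ b c : ℕ, 1 ≤ b ∧ 1 ≤ c ∧ s = b ^ 3 * c ^ 2) ∧ 1 ≤ s ∧
      (s ≠ 1 → (l - 1) ^ 2 ≤ s) := by
    intro s hs
    rw [hF, Finset.mem_image] at hs
    obtain ⟨n, hn, rfl⟩ := hs
    exact ⟨sP_form (hN n hn).2.2.2, sP_pos l n, fun h => sP_large (hN n hn).2.2.2 h⟩
  have hcard : (N.card : ℝ) ≤ ∑ s ∈ F, OO l (x / (2 ^ (l - 1) * s)) := by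
    rw [Finset.card_eq_sum_card_image (sP l) N, ← hF]
    push_cast
    apply Finset.sum_le_sum
    intro s hs
    exact fibre (by omega) h3 (hFs s hs).2.1 N hN
  set A : ℝ := (1 / 2) ^ l * x * EE l x with hA
  have hA0 : 0 ≤ A := by
    have := Real.exp_pos (-(LL x) / ((l : ℝ) - 1))
    have h1 : 0 < EE l x := this
    positivity
  have hEx : 0 < EE l x := Real.exp_pos _
  have hsub : ∀ G ⊆ F, ∑ s ∈ G, (s : ℝ) ^ (-(3 / 4) : ℝ) ≤ C₁ := by
    intro G hG
    exact hW G (fun s hs => (hFs s (hG hs)).1)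
  -- reciprocal sum
  have hrec : ∑ s ∈ F, (1 : ℝ) / s ≤ 1 + e := by
    rw [← Finset.sum_filter_add_sum_filter_not F (fun s => s = 1)]
    have h1 : ∑ s ∈ F.filter (fun s => s = 1), (1 : ℝ) / s ≤ 1 := by
      calc ∑ s ∈ F.filter (fun s => s = 1), (1 : ℝ) / s ≤ ∑ s ∈ ({1} : Finset ℕ), (1 : ℝ) / s := by
            apply Finset.sum_le_sum_of_subset_of_nonneg
            · intro s hs
              rw [Finset.mem_filter] at hs
              rw [Finset.mem_singleton]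
              exact hs.2
            · intro s _ _
              positivity
        _ = 1 := by simp
    have h2 : ∑ s ∈ F.filter (fun s => ¬ s = 1), (1 : ℝ) / s ≤ e := by
      have hT1 : (0 : ℝ) < (((l - 1) ^ 2 : ℕ) : ℝ) := by
        have : 0 < l - 1 := by omega
        exact_mod_cast pow_pos this 2
      refine (tail (C₁ := C₁) (F.filter (fun s => ¬ s = 1)) (hsub _ (Finset.filter_subset _ _)) hT1 ?_).trans ?_
      · intro s hs
        rw [Finset.mem_filter] at hs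
        exact_mod_cast (hFs s hs.1).2.2 hs.2
      · apply hT0
        have h4 : T0 ≤ ((⌈T0⌉₊ : ℕ) : ℝ) := Nat.le_ceil _
        have h5 : ⌈T0⌉₊ ≤ (l - 1) ^ 2 := by
          have : ⌈T0⌉₊ ≤ l - 1 := by omega
          nlinarith
        have h6 : ((⌈T0⌉₊ : ℕ) : ℝ) ≤ (((l - 1) ^ 2 : ℕ) : ℝ) := by exact_mod_cast h5
        linarith
    linarith
  -- small part
  have hsmall : ∑ s ∈ F.filter (fun s : ℕ => Real.log s ≤ Real.log x / 2), OO l (x / (2 ^ (l - 1) * s)) ≤
      (1 + 4 * e) * (1 + e) * (A * (1 + e)) := by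
    calc ∑ s ∈ F.filter (fun s : ℕ => Real.log s ≤ Real.log x / 2), OO l (x / (2 ^ (l - 1) * s))
        ≤ ∑ s ∈ F.filter (fun s : ℕ => Real.log s ≤ Real.log x / 2),
          (1 + 4 * e) * (1 + e) * (A * ((1 : ℝ) / s)) := by
          apply Finset.sum_le_sum
          intro s hs
          rw [Finset.mem_filter] at hs
          have h := small he0 he1 hSV' hl hl0 hl5 hlε hx1 hx2 hx3 hlx (hFs s hs.1).2.1 hs.2
          refine h.trans (le_of_eq ?_)
          rw [hA]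
          have hs0 : (s : ℝ) ≠ 0 := by
            have := (hFs s hs.1).2.1
            positivity
          rw [one_div_pow]
          field_simp
      _ = (1 + 4 * e) * (1 + e) * (A * ∑ s ∈ F.filter (fun s : ℕ => Real.log s ≤ Real.log x / 2), (1 : ℝ) / s) := by
          rw [Finset.mul_sum, Finset.mul_sum]
      _ ≤ (1 + 4 * e) * (1 + e) * (A * ∑ s ∈ F, (1 : ℝ) / s) := by
          have : ∑ s ∈ F.filter (fun s : ℕ => Real.log s ≤ Real.log x / 2), (1 : ℝ) / s ≤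
              ∑ s ∈ F, (1 : ℝ) / s := by
            apply Finset.sum_le_sum_of_subset_of_nonneg (Finset.filter_subset _ _)
            intro s _ _
            positivity
          gcongr
      _ ≤ _ := by gcongr
  -- large part
  have hlarge : ∑ s ∈ F.filter (fun s : ℕ => ¬ Real.log s ≤ Real.log x / 2), OO l (x / (2 ^ (l - 1) * s)) ≤
      e * A := by
    have hT1 : 0 < Real.exp (Real.log x / 2) := Real.exp_pos _
    have h1 : ∑ s ∈ F.filter (fun s : ℕ => ¬ Real.log s ≤ Real.log x / 2), (1 : ℝ) / s ≤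
        C₁ * Real.exp (Real.log x / 2) ^ (-(1 / 4) : ℝ) := by
      refine tail (C₁ := C₁) _ (hsub _ (Finset.filter_subset _ _)) hT1 ?_
      intro s hs
      rw [Finset.mem_filter] at hs
      have hs0 : (0 : ℝ) < s := by
        have := (hFs s hs.1).2.1
        exact_mod_cast this
      rw [← Real.le_log_iff_exp_le hs0]
      exact (not_le.mp hs.2).le
    have h2 : Real.exp (Real.log x / 2) ^ (-(1 / 4) : ℝ) = Real.exp (-(Real.log x / 8)) := by
      rw [← Real.exp_mul]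
      congr 1
      ring
    rw [h2] at h1
    have h4 : 2 * C₁ * Real.exp (-(Real.log x / 8)) ≤ e * EE l x := by
      have h5 : 1 / Real.log x ≤ EE l x := by
        have h6 : Real.exp (-(LL x)) ≤ EE l x := by
          unfold EE
          rw [Real.exp_le_exp]
          have h7 : 0 ≤ LL x := by
            unfold LL
            apply Real.log_nonneg
            linarith [show (1 : ℝ) ≤ 10 ^ 8 by norm_num]
          rw [neg_div, neg_le_neg_iff]
          exact div_le_self h7 (by linarith)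
        have h8 : Real.exp (-(LL x)) = 1 / Real.log x := by
          unfold LL
          rw [Real.exp_neg, Real.exp_log hL0, one_div]
        rw [← h8]
        exact h6
      have h9 : (Real.log x / 8) ^ 2 / 2 ≤ Real.exp (Real.log x / 8) := by
        have := Real.quadratic_le_exp_of_nonneg (x := Real.log x / 8) (by positivity)
        linarith
      have h10 : 256 * C₁ ≤ e * Real.log x := by
        rw [div_le_iff₀ he0] at hx4
        linarith
      have h11 : 2 * C₁ * Real.log x ≤ e * Real.exp (Real.log x / 8) := by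
        have : 2 * C₁ * Real.log x ≤ e * ((Real.log x / 8) ^ 2 / 2) := by nlinarith
        exact this.trans (by gcongr)
      have h12 : 2 * C₁ * Real.exp (-(Real.log x / 8)) ≤ e * (1 / Real.log x) := by
        rw [Real.exp_neg, mul_one_div, ← div_eq_mul_inv, div_le_div_iff₀ (Real.exp_pos _) hL0]
        exact h11
      exact h12.trans (by gcongr)
    calc ∑ s ∈ F.filter (fun s : ℕ => ¬ Real.log s ≤ Real.log x / 2), OO l (x / (2 ^ (l - 1) * s))
        ≤ ∑ s ∈ F.filter (fun s : ℕ => ¬ Real.log s ≤ Real.log x / 2),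
          (2 * ((1 / 2) ^ l * x)) * ((1 : ℝ) / s) := by
          apply Finset.sum_le_sum
          intro s hs
          rw [Finset.mem_filter] at hs
          refine (OO_le_self _ _).trans ?_
          have h13 := @Nat.cast_div_le ℝ _ _ _ x (2 ^ (l - 1) * s)
          refine h13.trans (le_of_eq ?_)
          have hs0 : (s : ℝ) ≠ 0 := by
            have := (hFs s hs.1).2.1
            positivity
          have e2 : (2 : ℝ) ^ l = 2 ^ (l - 1) * 2 := by
            rw [← pow_succ]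
            congr 1
            omega
          push_cast
          rw [one_div_pow, e2]
          field_simp
      _ = (2 * ((1 / 2) ^ l * x)) * ∑ s ∈ F.filter (fun s : ℕ => ¬ Real.log s ≤ Real.log x / 2), (1 : ℝ) / s := by
          rw [Finset.mul_sum]
      _ ≤ (2 * ((1 / 2) ^ l * x)) * (C₁ * Real.exp (-(Real.log x / 8))) := by gcongr
      _ = ((1 / 2) ^ l * x) * (2 * C₁ * Real.exp (-(Real.log x / 8))) := by ring
      _ ≤ ((1 / 2) ^ l * x) * (e * EE l x) := by gcongr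
      _ = e * A := by
          rw [hA]
          ring
  rw [hNb]
  have htot : ∑ s ∈ F, OO l (x / (2 ^ (l - 1) * s)) ≤ (1 + 4 * e) * (1 + e) * (A * (1 + e)) + e * A := by
    rw [← Finset.sum_filter_add_sum_filter_not F (fun s : ℕ => Real.log s ≤ Real.log x / 2)]
    linarith
  have hpoly : (1 + 4 * e) * (1 + e) * (1 + e) + e ≤ 1 + ε := by
    have h1 : e ^ 2 ≤ e := by nlinarith
    have h2 : e ^ 3 ≤ e := by
      calc e ^ 3 = e ^ 2 * e := by ring
        _ ≤ e * e := by gcongr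
        _ = e ^ 2 := by ring
        _ ≤ e := h1
    have h4 : (1 + 4 * e) * (1 + e) * (1 + e) + e = 1 + 7 * e + 9 * e ^ 2 + 4 * e ^ 3 := by ring
    rw [h4]
    linarith
  calc (N.card : ℝ) ≤ _ := hcard
    _ ≤ _ := htot
    _ = ((1 + 4 * e) * (1 + e) * (1 + e) + e) * A := by ring
    _ ≤ (1 + ε) * A := by gcongr

end Pool.Agent.H201R3.NAUP
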